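import Mathlib

/-!
Erdős–Hajnal–Szemerédi: if a graph `G` has uncountable chromatic number then `h_G(n) / n → ∞`,
where `h_G(n)` is the maximum over the `n`-element vertex sets `S` of the least number of edges
whose deletion makes `G[S]` bipartite.

Plan of the proof.
* `cc_of_semimetric`: let `q` be a pointwise limit of convex combinations of cut semimetrics on
  the vertex set. If for each `δ > 0` the edges with `1 - q ≥ δ` form a countably chromatic
  graph, then the whole graph is countably chromatic.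
* `exists_levels`: the vertex set of an uncountable graph splits into well-ordered levels of
  smaller cardinality, such that each finite configuration above level `i` has abundantly many
  copies from level `i` on, as seen from a finite set of vertices of level at most `i`.
* `psi`: if each finite `S` can be 2-coloured with at most `C |S|` monochromatic edges, then by
  induction on the level each weighting of a finite set has a good 2-colouring; the infinitely
  many lower neighbours of a vertex force its colour.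
* `minimax`, `exists_semi`: this gives a semimetric `q` as above.
* `cc_of_HC`: hence such a graph is countably chromatic (induction on the number of vertices).
* `result`: if `h_G(n) ≤ C n` for infinitely many `n`, then after the removal of countably many
  vertices each finite `S` satisfies `β(G[S]) ≤ 2 C |S|`.
-/

set_option autoImplicit false
open Set Cardinal Filter Topology

namespace Pool.Agent.Results.MP_c5c71e_co.Superlinear

universe u v

/-- The chromatic number of a (possibly infinite) graph as a cardinal: the least cardinality of a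
set of colours for which there is a proper vertex colouring. -/
noncomputable def cardChromatic {V : Type u} (G : SimpleGraph V) : Cardinal.{u} :=
  sInf {κ : Cardinal.{u} | ∃ α : Type u, #α = κ ∧ Nonempty (G.Coloring α)}

/-- `bipDeficiency G S` is `β(G[S])`: the least number of edges whose deletion makes the subgraph
of `G` induced on the finite vertex set `S` bipartite. -/
noncomputable def bipDeficiency {V : Type u} (G : SimpleGraph V) (S : Finset V) : ℕ :=
  sInf {m : ℕ | ∃ D : Finset (Sym2 V), D.card = m ∧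
    ((G.deleteEdges (D : Set (Sym2 V))).induce (S : Set V)).IsBipartite}

/-- `hG G n` is the maximum of `β(G[S])` over the vertex sets `S` with `n` elements. -/
noncomputable def hG {V : Type u} (G : SimpleGraph V) (n : ℕ) : ℕ :=
  sSup {b : ℕ | ∃ S : Finset V, S.card = n ∧ bipDeficiency G S = b}

section Part1
variable {V : Type u}

/-- `G` has a proper colouring with countably many colours -/
def CC (G : SimpleGraph V) : Prop := ∃ f : V → ℕ, ∀ u v, G.Adj u v → f u ≠ f v

noncomputable def tt (q : V → V → ℝ) (x v : V) : ℝ := min (q x v) (1 - q x v)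

theorem tt_lip {q : V → V → ℝ} (htri : ∀ x u v, q u v ≤ q x u + q x v)
    (hper : ∀ x u v, q x u + q x v + q u v ≤ 2) (y u v : V) :
    tt q y u ≤ tt q y v + (1 - q u v) := by
  unfold tt
  rcases min_cases (q y v) (1 - q y v) with ⟨h, _⟩ | ⟨h, _⟩
  · rw [h]
    refine (min_le_right _ _).trans ?_
    have := htri y u v
    linarith
  · rw [h]
    refine (min_le_left _ _).trans ?_
    have := hper y u v
    linarith

noncomputable def eps (j : ℕ) : ℝ := 1 / 4 - 1 / (8 * ((j : ℝ) + 1))

theorem eps_pos (j : ℕ) : 0 < eps j := by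
  unfold eps
  have h1 : 1 / (8 * ((j : ℝ) + 1)) ≤ 1 / 8 := by
    apply one_div_le_one_div_of_le (by norm_num)
    have : (0 : ℝ) ≤ j := Nat.cast_nonneg j
    linarith
  linarith

theorem eps_lt (j : ℕ) : eps j < 1 / 4 := by
  unfold eps
  have : (0 : ℝ) < 1 / (8 * ((j : ℝ) + 1)) := by positivity
  linarith

theorem eps_succ (j : ℕ) : eps j < eps (j + 1) := by
  unfold eps
  have h : 1 / (8 * (((j + 1 : ℕ) : ℝ) + 1)) < 1 / (8 * ((j : ℝ) + 1)) := by
    apply one_div_lt_one_div_of_lt (by positivity)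
    push_cast
    linarith
  linarith

/-- A graph with a cut-type semimetric `q` such that, for each `δ > 0`, the edges with
`1 - q ≥ δ` are countably chromatic, is countably chromatic. -/
theorem cc_of_semimetric (G : SimpleGraph V) (q : V → V → ℝ)
    (hself : ∀ v, q v v = 0) (hsymm : ∀ u v, q u v = q v u)
    (htri : ∀ x u v, q u v ≤ q x u + q x v)
    (hper : ∀ x u v, q x u + q x v + q u v ≤ 2)
    (hδ : ∀ m : ℕ, 0 < m → ∃ g : V → ℕ, ∀ u v, G.Adj u v → 1 / (m : ℝ) ≤ 1 - q u v → g u ≠ g v) :
    CC G := by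
  classical
  let r : V → V → Prop := WellOrderingRel
  have hwf : WellFounded r := (inferInstance : IsWellFounded V WellOrderingRel).wf
  have htrans : ∀ a b c, r a b → r b c → r a c := fun a b c => _root_.trans (r := WellOrderingRel)
  have htri' : ∀ a b, ¬ r a b → a = b ∨ r b a := by
    intro a b hab
    rcases trichotomous_of (WellOrderingRel (α := V)) a b with h | h | h
    · exact absurd h hab
    · exact Or.inl h
    · exact Or.inr h
  have hmin : ∀ (v : V) (j : ℕ), ∃ x, tt q x v < eps j ∧ ∀ y, tt q y v < eps j → ¬ r y x := by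
    intro v j
    have hne : {x | tt q x v < eps j}.Nonempty := by
      refine ⟨v, ?_⟩
      show tt q v v < eps j
      unfold tt
      rw [hself]
      exact (min_le_left _ _).trans_lt (eps_pos j)
    obtain ⟨x, hx, hx2⟩ := hwf.has_min _ hne
    exact ⟨x, hx, fun y hy => hx2 y hy⟩
  choose γ hγ1 hγ2 using hmin
  have hgood : ∀ v : V, ∃ (j m : ℕ), 2 ≤ m ∧ tt q (γ v j) v < eps j - 1 / (m : ℝ) ∧
      ∀ y, r y (γ v j) → eps j + 1 / (m : ℝ) < tt q y v := by
    intro v
    by_contra hcon
    push Not at hcon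
    have hdesc : ∀ j, r (γ v (j + 1)) (γ v j) := by
      intro j
      have h1 : 0 < min (eps j - tt q (γ v j) v) (eps (j + 1) - eps j) :=
        lt_min (by linarith [hγ1 v j]) (by linarith [eps_succ j])
      obtain ⟨m, hm⟩ := exists_nat_one_div_lt h1
      have h2 : (1 : ℝ) / ((m + 2 : ℕ) : ℝ) < min (eps j - tt q (γ v j) v) (eps (j + 1) - eps j) := by
        refine lt_of_le_of_lt ?_ hm
        apply one_div_le_one_div_of_le (by positivity)
        push_cast
        linarith
      have h3 := h2.trans_le (min_le_left _ _)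
      have h4 := h2.trans_le (min_le_right _ _)
      obtain ⟨y, hy1, hy2⟩ := hcon j (m + 2) (by omega) (by linarith)
      have h5 : tt q y v < eps (j + 1) := by linarith
      rcases htri' _ _ (hγ2 v (j + 1) y h5) with h6 | h6
      · rw [← h6]; exact hy1
      · exact htrans _ _ _ h6 hy1
    obtain ⟨x, ⟨j, rfl⟩, hx⟩ := hwf.has_min (Set.range (γ v)) ⟨_, 0, rfl⟩
    exact hx _ ⟨j + 1, rfl⟩ (hdesc j)
  choose J M hM2 hJ1 hJ2 using hgood
  choose g hg using hδ
  let g' : ℕ → V → ℕ := fun m v => if h : 0 < m then g m h v else 0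
  refine ⟨fun v => Encodable.encode (J v, M v, g' (M v) v, decide (q (γ v (J v)) v < eps (J v))), ?_⟩
  intro u v huv hf
  have hf' := Encodable.encode_injective hf
  simp only [Prod.mk.injEq] at hf'
  obtain ⟨hj, hm, hgg, hpar⟩ := hf'
  have hM0 : 0 < M v := by have := hM2 v; omega
  rw [hm] at hgg
  have hgg' : g (M v) hM0 u = g (M v) hM0 v := by
    simpa [g', hM0] using hgg
  have hp : 1 - q u v < 1 / (M v : ℝ) := by
    by_contra hcon
    exact hg (M v) hM0 u v huv (not_lt.1 hcon) hgg'
  have hMle : 1 / (M v : ℝ) ≤ 1 / 2 := by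
    apply one_div_le_one_div_of_le (by norm_num)
    exact_mod_cast hM2 v
  -- same centre
  have h1 : tt q (γ v (J v)) u < eps (J v) := by
    have := tt_lip htri hper (γ v (J v)) u v
    have := hJ1 v
    linarith
  have hc : γ u (J v) = γ v (J v) := by
    have h2 := hγ2 u (J v) _ h1
    rcases htri' _ _ h2 with h3 | h3
    · exact h3.symm
    · exfalso
      have h4 := hJ2 v _ h3
      have h5 := tt_lip htri hper (γ u (J v)) v u
      rw [hsymm v u] at h5
      have h6 := hγ1 u (J v)
      linarith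
  rw [hj, hc] at hpar
  set x := γ v (J v) with hx
  have hq : q u v < 2 * eps (J v) := by
    by_cases hcase : q x v < eps (J v)
    · have h2 : q x u < eps (J v) := by
        have : decide (q x u < eps (J v)) = true := by rw [hpar]; exact decide_eq_true hcase
        exact of_decide_eq_true this
      have := htri x u v
      linarith
    · have h2 : ¬ q x u < eps (J v) := by
        intro hcon
        have : decide (q x v < eps (J v)) = true := by rw [← hpar]; exact decide_eq_true hcon
        exact hcase (of_decide_eq_true this)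
      have h3 : 1 - q x u < eps (J v) := by
        have := h1
        unfold tt at this
        rcases min_lt_iff.1 this with h | h
        · exact absurd h h2
        · exact h
      have h4 : 1 - q x v < eps (J v) := by
        have := hγ1 v (J v)
        unfold tt at this
        rcases min_lt_iff.1 this with h | h
        · exact absurd h hcase
        · exact h
      have := hper x u v
      linarith
  have := eps_lt (J v)
  linarith

end Part1

section Part2
variable {V : Type u}

open Classical in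
/-- number of neighbours of `u` in `T` with the colour of `u` -/
noncomputable def kk (G : SimpleGraph V) (c : V → Bool) (u : V) (T : Finset V) : ℕ :=
  (T.filter (fun v => G.Adj u v ∧ c u = c v)).card

noncomputable def mm [DecidableEq V] (G : SimpleGraph V) (c : V → Bool) (F U : Finset V) : ℕ :=
  ∑ u ∈ U, kk G c u (U ∪ F)

noncomputable def cost [DecidableEq V] (G : SimpleGraph V) (c : V → Bool) (F U : Finset V) : ℕ :=
  sInf {n | ∃ c' : V → Bool, (∀ v ∈ F, c' v = c v) ∧ mm G c' F U = n}

theorem kk_mono (G : SimpleGraph V) (c : V → Bool) (u : V) {T T' : Finset V} (h : T ⊆ T') :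
    kk G c u T ≤ kk G c u T' := by
  classical
  unfold kk
  exact Finset.card_le_card (Finset.filter_subset_filter _ h)

theorem kk_congr (G : SimpleGraph V) {c c' : V → Bool} {u : V} {T : Finset V}
    (hu : c u = c' u) (h : ∀ v ∈ T, c v = c' v) : kk G c u T = kk G c' u T := by
  classical
  unfold kk
  congr 1
  apply Finset.filter_congr
  intro v hv
  rw [hu, h v hv]

theorem cost_spec [DecidableEq V] (G : SimpleGraph V) (c : V → Bool) (F U : Finset V) :
    ∃ c' : V → Bool, (∀ v ∈ F, c' v = c v) ∧ mm G c' F U = cost G c F U := by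
  have hne : {n | ∃ c' : V → Bool, (∀ v ∈ F, c' v = c v) ∧ mm G c' F U = n}.Nonempty :=
    ⟨_, c, fun _ _ => rfl, rfl⟩
  exact Nat.sInf_mem hne

theorem cost_le [DecidableEq V] (G : SimpleGraph V) {c c' : V → Bool} {F : Finset V} (U : Finset V)
    (h : ∀ v ∈ F, c' v = c v) : cost G c F U ≤ mm G c' F U :=
  Nat.sInf_le ⟨c', h, rfl⟩

theorem mm_union [DecidableEq V] (G : SimpleGraph V) (c : V → Bool) (F : Finset V) {U W : Finset V}
    (h : Disjoint U W) : mm G c F U + mm G c F W ≤ mm G c F (U ∪ W) := by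
  unfold mm
  have h1 : ∑ u ∈ U ∪ W, kk G c u (U ∪ W ∪ F) =
      ∑ u ∈ U, kk G c u (U ∪ W ∪ F) + ∑ u ∈ W, kk G c u (U ∪ W ∪ F) := Finset.sum_union h
  have h2 : ∑ u ∈ U, kk G c u (U ∪ F) ≤ ∑ u ∈ U, kk G c u (U ∪ W ∪ F) := by
    apply Finset.sum_le_sum
    intro u _
    apply kk_mono
    intro x hx
    simp only [Finset.mem_union] at hx ⊢
    tauto
  have h3 : ∑ u ∈ W, kk G c u (W ∪ F) ≤ ∑ u ∈ W, kk G c u (U ∪ W ∪ F) := by
    apply Finset.sum_le_sum
    intro u _
    apply kk_mono
    intro x hx
    simp only [Finset.mem_union] at hx ⊢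
    tauto
  exact (Nat.add_le_add h2 h3).trans h1.ge

theorem mm_mono [DecidableEq V] (G : SimpleGraph V) (c : V → Bool) {F F' U U' : Finset V}
    (h : U ⊆ U') (h2 : U ∪ F ⊆ U' ∪ F') : mm G c F U ≤ mm G c F' U' := by
  unfold mm
  have h3 : ∑ u ∈ U, kk G c u (U ∪ F) ≤ ∑ u ∈ U, kk G c u (U' ∪ F') := by
    apply Finset.sum_le_sum
    intro u _
    apply kk_mono
    intro x hx
    have := @h2 x
    simp only [Finset.mem_union] at hx this ⊢
    exact this hx
  exact h3.trans (Finset.sum_le_sum_of_subset h)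

theorem kk_le_mm [DecidableEq V] (G : SimpleGraph V) (c : V → Bool) {F U : Finset V} {u : V} (h : u ∈ U) :
    kk G c u F ≤ mm G c F U := by
  unfold mm
  refine le_trans ?_ (Finset.single_le_sum (f := fun u => kk G c u (U ∪ F))
    (fun _ _ => Nat.zero_le _) h)
  apply kk_mono
  exact Finset.subset_union_right

variable {I : Type v} [LinearOrder I] [DecidableEq V]

/-- abundance of copies -/
def Abund (G : SimpleGraph V) (level : V → I) : Prop :=
  ∀ i : I, ∀ F : Finset V, (∀ v ∈ F, level v ≤ i) → ∀ U : Finset V, (∀ v ∈ U, i < level v) →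
    ∀ D : Finset V, ∃ U' : Finset V, (∀ v ∈ U', i ≤ level v) ∧ Disjoint U' D ∧
      U'.card = U.card ∧ ∀ c, cost G c F U' = cost G c F U

theorem copies {G : SimpleGraph V} {level : V → I} (hab : Abund G level) (i : I) (F : Finset V)
    (hF : ∀ v ∈ F, level v ≤ i) (UU : Multiset (Finset V)) :
    (∀ U ∈ UU, ∀ v ∈ U, i < level v) → ∃ W : Finset V, (∀ v ∈ W, i ≤ level v) ∧
      W.card = (UU.map Finset.card).sum ∧ ∀ c, (UU.map (cost G c F)).sum ≤ mm G c F W := by
  induction UU using Multiset.induction_on with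
  | empty =>
    intro _
    exact ⟨∅, by simp, by simp, by simp⟩
  | cons U UU ih =>
    intro h
    obtain ⟨W, hW1, hW2, hW3⟩ := ih (fun U' hU' => h U' (Multiset.mem_cons_of_mem hU'))
    obtain ⟨U', hU1, hU2, hU3, hU4⟩ := hab i F hF U (h U (Multiset.mem_cons_self _ _)) W
    refine ⟨U' ∪ W, ?_, ?_, ?_⟩
    · intro v hv
      rcases Finset.mem_union.1 hv with hv | hv
      · exact hU1 v hv
      · exact hW1 v hv
    · rw [Finset.card_union_of_disjoint hU2, hU3, hW2]
      simp
    · intro c
      rw [Multiset.map_cons, Multiset.sum_cons]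
      refine le_trans ?_ (mm_union G c F hU2)
      apply Nat.add_le_add _ (hW3 c)
      rw [← hU4 c]
      exact cost_le G _ (fun _ _ => rfl)

def Rich (G : SimpleGraph V) (level : V → I) (v : V) : Prop :=
  {u | G.Adj v u ∧ level u < level v}.Infinite

end Part2

section Part3
variable {V : Type u} {I : Type v} [LinearOrder I] [DecidableEq V]

/-- number of neighbours of `v` in `F` of lower level -/
noncomputable def low (G : SimpleGraph V) (level : V → I) (c : V → Bool) (F : Finset V) (v : V) : ℕ :=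
  kk G c v (F.filter (fun u => level u < level v))

theorem multi_sum_bound {G : SimpleGraph V} {C : ℕ} (hC : ∀ S : Finset V, ∃ c, mm G c ∅ S ≤ C * S.card)
    (c : V → Bool) (UU : Multiset (Finset V)) :
    (UU.map (cost G c ∅)).sum ≤ C * (UU.map Finset.card).sum := by
  induction UU using Multiset.induction_on with
  | empty => simp
  | cons U UU ih =>
    rw [Multiset.map_cons, Multiset.sum_cons, Multiset.map_cons, Multiset.sum_cons, mul_add]
    apply Nat.add_le_add _ ih
    obtain ⟨c', hc'⟩ := hC U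
    exact (cost_le G U (c := c) (c' := c') (by simp)).trans hc'

omit [DecidableEq V] in
theorem bind_sum (R : Finset V) (n : V → ℕ) (f : Finset V → ℕ) :
    ((R.val.bind (fun v => Multiset.replicate (n v) ({v} : Finset V))).map f).sum =
      ∑ v ∈ R, n v * f {v} := by
  rw [Multiset.map_bind, Multiset.sum_bind]
  simp only [Multiset.map_replicate, Multiset.sum_replicate, smul_eq_mul]
  rfl

theorem kk_split (G : SimpleGraph V) {c c' : V → Bool} {v : V} {T : Finset V}
    (h : ∀ u ∈ T, c' u = c u) (hv : c' v ≠ c v) (L : Finset V) (hL : L ⊆ T)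
    (hLa : ∀ u ∈ L, G.Adj v u) : L.card ≤ kk G c v T + kk G c' v T := by
  classical
  unfold kk
  rw [← Finset.card_union_of_disjoint]
  · apply Finset.card_le_card
    intro u hu
    rw [Finset.mem_union, Finset.mem_filter, Finset.mem_filter]
    by_cases hc : c v = c u
    · exact Or.inl ⟨hL hu, hLa u hu, hc⟩
    · refine Or.inr ⟨hL hu, hLa u hu, ?_⟩
      rw [h u (hL hu)]
      revert hc hv
      cases c v <;> cases c u <;> cases c' v <;> simp
  · rw [Finset.disjoint_left]
    intro u hu hu'
    rw [Finset.mem_filter] at hu hu'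
    apply hv
    rw [hu'.2.2, h u hu.1, hu.2.2]

theorem psi [WellFoundedLT I] {G : SimpleGraph V} {level : V → I} {C : ℕ}
    (hC : ∀ S : Finset V, ∃ c, mm G c ∅ S ≤ C * S.card) (hab : Abund G level) (i : I) :
    ∀ F : Finset V, (∀ v ∈ F, level v ≤ i) → ∀ w : V → ℕ, (∀ v, w v ≠ 0 → Rich G level v) →
    ∀ UU : Multiset (Finset V), (∀ U ∈ UU, ∀ v ∈ U, i < level v) → ∃ c : V → Bool,
      ∑ v ∈ F, w v * low G level c F v + (UU.map (cost G c F)).sum ≤
        C * (∑ v ∈ F, w v + (UU.map Finset.card).sum) := by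
  classical
  induction i using WellFoundedLT.induction with
  | ind i ih =>
  -- phi
  have phi : ∀ F : Finset V, (∀ v ∈ F, level v < i) → ∀ w : V → ℕ, (∀ v, w v ≠ 0 → Rich G level v) →
      ∀ UU : Multiset (Finset V), (∀ U ∈ UU, ∀ v ∈ U, i ≤ level v) → ∃ c : V → Bool,
      ∑ v ∈ F, w v * low G level c F v + (UU.map (cost G c F)).sum ≤
        C * (∑ v ∈ F, w v + (UU.map Finset.card).sum) := by
    intro F hF w hw UU hUU
    rcases Finset.eq_empty_or_nonempty F with rfl | hne
    · refine ⟨fun _ => true, ?_⟩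
      simpa using multi_sum_bound hC (fun _ => true) UU
    · obtain ⟨v0, hv0, hmax⟩ := Finset.exists_max_image F level hne
      exact ih (level v0) (hF v0 hv0) F hmax w hw UU
        (fun U hU v hv => (hF v0 hv0).trans_le (hUU U hU v hv))
  intro F hF w hw UU hUU
  let F0 := F.filter (fun v => level v < i)
  let R := F.filter (fun v => ¬ level v < i)
  have hRl : ∀ v ∈ R, level v = i := fun v hv =>
    le_antisymm (hF v (Finset.mem_filter.1 hv).1) (not_lt.1 (Finset.mem_filter.1 hv).2)
  have hFR : F = F0 ∪ R := (Finset.filter_union_filter_not_eq _ _).symm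
  have hsum : ∀ f : V → ℕ, ∑ v ∈ F, f v = ∑ v ∈ F0, f v + ∑ v ∈ R, f v := fun f =>
    (Finset.sum_filter_add_sum_filter_not _ _ _).symm
  let K := C * R.card + 1
  let S := (UU.map Finset.card).sum
  let Q := C * (K * ∑ v ∈ F0, w v + (R.card + K * S + ∑ v ∈ R, K * w v))
  -- large sets of lower neighbours
  have hL : ∀ v : V, ∃ L : Finset V, v ∈ R → w v ≠ 0 →
      (∀ u ∈ L, G.Adj v u ∧ level u < i) ∧ L.card = 2 * Q + 1 := by
    intro v
    by_cases hv : v ∈ R ∧ w v ≠ 0
    · obtain ⟨L, hL1, hL2⟩ := (hw v hv.2).exists_subset_card_eq (2 * Q + 1)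
      refine ⟨L, fun h _ => ⟨fun u hu => ?_, hL2⟩⟩
      have := hL1 (Finset.mem_coe.2 hu)
      rw [← hRl v h]
      exact this
    · exact ⟨∅, fun h1 h2 => absurd ⟨h1, h2⟩ hv⟩
  choose L hL using hL
  let R' := R.filter (fun v => w v ≠ 0)
  let F0' := F0 ∪ R'.biUnion L
  have hF0' : ∀ v ∈ F0', level v < i := by
    intro v hv
    rcases Finset.mem_union.1 hv with hv | hv
    · exact (Finset.mem_filter.1 hv).2
    · obtain ⟨x, hx, hv⟩ := Finset.mem_biUnion.1 hv
      have hx' := Finset.mem_filter.1 hx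
      exact ((hL x hx'.1 hx'.2).1 v hv).2
  obtain ⟨W, hW1, hW2, hW3⟩ := copies hab i F hF (K • UU) (by
    intro U hU
    exact hUU U (Multiset.mem_of_mem_nsmul hU))
  let w' : V → ℕ := fun v => if v ∈ F0 then K * w v else 0
  let UU' : Multiset (Finset V) := (R ∪ W) ::ₘ
    (R.val.bind (fun v => Multiset.replicate (K * w v) ({v} : Finset V)))
  obtain ⟨c, hc⟩ := phi F0' hF0' w' (by
    intro v hv
    apply hw
    intro h0
    apply hv
    show (if v ∈ F0 then K * w v else 0) = 0
    rw [h0]
    simp) UU' (by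
    intro U hU v hv
    rcases Multiset.mem_cons.1 hU with rfl | hU
    · rcases Finset.mem_union.1 hv with hv | hv
      · exact (hRl v hv).ge
      · exact hW1 v hv
    · obtain ⟨x, hx, hU⟩ := Multiset.mem_bind.1 hU
      have := Multiset.eq_of_mem_replicate hU
      rw [this, Finset.mem_singleton] at hv
      rw [hv]
      exact (hRl x hx).ge)
  obtain ⟨c1, hc1, hc2⟩ := cost_spec G c F0' (R ∪ W)
  refine ⟨c1, ?_⟩
  -- rewrite hc
  have hw'1 : ∀ f : V → ℕ, ∑ v ∈ F0', w' v * f v = ∑ v ∈ F0, K * w v * f v := by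
    intro f
    have hsub : F0 ⊆ F0' := Finset.subset_union_left
    rw [← Finset.sum_subset hsub]
    · apply Finset.sum_congr rfl
      intro v hv
      simp only [w', if_pos hv]
    · intro v _ hv
      simp only [w', if_neg hv, zero_mul]
  have hw'2 : ∑ v ∈ F0', w' v = ∑ v ∈ F0, K * w v := by
    have := hw'1 (fun _ => 1)
    simpa using this
  rw [hw'1, hw'2] at hc
  simp only [UU', Multiset.map_cons, Multiset.sum_cons, bind_sum, Finset.card_singleton,
    mul_one] at hc
  have hcardRW : (R ∪ W).card ≤ R.card + K * S := by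
    refine (Finset.card_union_le _ _).trans ?_
    rw [hW2, Multiset.map_nsmul, Multiset.sum_nsmul, smul_eq_mul]
  have hQ : ∑ v ∈ F0, K * w v * low G level c F0' v + (cost G c F0' (R ∪ W) +
      ∑ v ∈ R, K * w v * cost G c F0' {v}) ≤ Q := by
    refine hc.trans ?_
    apply Nat.mul_le_mul_left
    rw [← Finset.mul_sum]
    exact Nat.add_le_add_left (Nat.add_le_add_right hcardRW _) _
  -- bound for vertices in R
  have hR1 : ∀ v ∈ R, w v * low G level c1 F v ≤ w v * cost G c F0' {v} := by
    intro v hv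
    by_cases h0 : w v = 0
    · rw [h0]; simp
    apply Nat.mul_le_mul_left
    have hlow : low G level c1 F v ≤ kk G c1 v F0' := by
      unfold low
      apply kk_mono
      rw [hRl v hv]
      exact Finset.subset_union_left
    refine hlow.trans ?_
    obtain ⟨c2, hc3, hc4⟩ := cost_spec G c F0' {v}
    have hmm : mm G c2 F0' {v} = kk G c2 v ({v} ∪ F0') := by
      unfold mm
      rw [Finset.sum_singleton]
    rw [← hc4, hmm]
    by_cases heq : c2 v = c1 v
    · rw [kk_congr G (c := c1) (c' := c2) heq.symm (fun u hu => by rw [hc1 u hu, hc3 u hu])]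
      exact kk_mono G _ _ Finset.subset_union_right
    · have h1 : kk G c1 v F0' ≤ Q := by
        refine le_trans ?_ hQ
        refine le_trans ?_ (Nat.le_add_left _ _)
        refine le_trans ?_ (Nat.le_add_right _ _)
        rw [← hc2]
        exact kk_le_mm G c1 (Finset.mem_union_left _ hv)
      have h2 := (hL v hv h0)
      have h3 : (L v).card ≤ kk G c1 v F0' + kk G c2 v F0' := by
        apply kk_split G (fun u hu => by rw [hc3 u hu, hc1 u hu]) heq (L v)
        · intro u hu
          apply Finset.mem_union_right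
          exact Finset.mem_biUnion.2 ⟨v, Finset.mem_filter.2 ⟨hv, h0⟩, hu⟩
        · intro u hu
          exact (h2.1 u hu).1
      have h4 : kk G c2 v F0' ≤ kk G c2 v ({v} ∪ F0') := kk_mono G _ _ Finset.subset_union_right
      rw [h2.2] at h3
      omega
  -- bound for vertices in F0
  have hF1 : ∀ v ∈ F0, low G level c1 F v ≤ low G level c F0' v := by
    intro v hv
    have hvl := (Finset.mem_filter.1 hv).2
    unfold low
    have hsub : F.filter (fun u => level u < level v) ⊆ F0'.filter (fun u => level u < level v) := by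
      intro u hu
      rw [Finset.mem_filter] at hu ⊢
      refine ⟨Finset.mem_union_left _ (Finset.mem_filter.2 ⟨hu.1, hu.2.trans hvl⟩), hu.2⟩
    refine (kk_mono G c1 v hsub).trans ?_
    rw [kk_congr G (c := c1) (c' := c)]
    · exact hc1 v (Finset.mem_union_left _ hv)
    · intro u hu
      exact hc1 u (Finset.mem_filter.1 hu).1
  have hU1 : K * (UU.map (cost G c1 F)).sum ≤ cost G c F0' (R ∪ W) := by
    have h1 := hW3 c1
    rw [Multiset.map_nsmul, Multiset.sum_nsmul, smul_eq_mul] at h1
    refine h1.trans ?_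
    rw [← hc2]
    apply mm_mono G c1 Finset.subset_union_right
    rw [hFR]
    intro u hu
    simp only [Finset.mem_union] at hu ⊢
    rcases hu with hu | hu | hu
    · exact Or.inl (Or.inr hu)
    · exact Or.inr (Finset.mem_union_left _ hu)
    · exact Or.inl (Or.inl hu)
  -- conclude
  have hfin : K * (∑ v ∈ F, w v * low G level c1 F v + (UU.map (cost G c1 F)).sum) ≤
      K * (C * (∑ v ∈ F, w v + (UU.map Finset.card).sum)) + C * R.card := by
    have h1 : K * ∑ v ∈ F, w v * low G level c1 F v ≤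
        ∑ v ∈ F0, K * w v * low G level c F0' v + ∑ v ∈ R, K * w v * cost G c F0' {v} := by
      rw [hsum, mul_add, Finset.mul_sum, Finset.mul_sum]
      apply Nat.add_le_add
      · apply Finset.sum_le_sum
        intro v hv
        rw [mul_assoc]
        exact Nat.mul_le_mul_left _ (Nat.mul_le_mul_left _ (hF1 v hv))
      · apply Finset.sum_le_sum
        intro v hv
        rw [mul_assoc]
        exact Nat.mul_le_mul_left _ (hR1 v hv)
    have h2 : Q = K * (C * (∑ v ∈ F, w v + (UU.map Finset.card).sum)) + C * R.card := by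
      show C * (K * ∑ v ∈ F0, w v + (R.card + K * S + ∑ v ∈ R, K * w v)) = _
      rw [hsum w, ← Finset.mul_sum]
      show _ = K * (C * (∑ v ∈ F0, w v + ∑ v ∈ R, w v + S)) + C * R.card
      ring
    rw [← h2, mul_add]
    refine le_trans ?_ hQ
    have := Nat.add_le_add h1 hU1
    omega
  have hKR : C * R.card < K := Nat.lt_succ_self _
  by_contra hcon
  push Not at hcon
  have h5 := Nat.mul_le_mul_left K (Nat.succ_le_of_lt hcon)
  have h6 : K * (C * (∑ v ∈ F, w v + (UU.map Finset.card).sum)).succ =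
      K * (C * (∑ v ∈ F, w v + (UU.map Finset.card).sum)) + K := Nat.mul_succ _ _
  rw [h6] at h5
  omega

end Part3

section Part4
/-- Finite theorem of the alternative: a mixed strategy. -/
theorem minimax {Ω J : Type*} [Fintype Ω] [Fintype J] [Nonempty Ω] (A : Ω → J → ℝ)
    (h : ∀ w : J → ℕ, ∃ a, ∑ j, (w j : ℝ) * A a j ≤ 0) :
    ∃ μ : Ω → ℝ, (∀ a, 0 ≤ μ a) ∧ ∑ a, μ a = 1 ∧ ∀ j, ∑ a, μ a * A a j ≤ 0 := by
  classical
  let Φ : (Ω → ℝ) → (J → ℝ) := fun μ j => ∑ a, μ a * A a j
  have hlin : IsLinearMap ℝ Φ := by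
    constructor
    · intro x y
      funext j
      simp only [Φ, Pi.add_apply, add_mul, Finset.sum_add_distrib]
    · intro c x
      funext j
      simp only [Φ, Pi.smul_apply, smul_eq_mul, mul_assoc, Finset.mul_sum]
  have hcont : Continuous Φ := by
    apply continuous_pi
    intro j
    apply continuous_finsetSum
    intro a _
    exact (continuous_apply a).mul continuous_const
  let K : Set (J → ℝ) := Φ '' stdSimplex ℝ Ω
  have hKc : IsCompact K := (isCompact_stdSimplex ℝ Ω).image hcont
  have hKv : Convex ℝ K := (convex_stdSimplex ℝ Ω).is_linear_image hlin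
  let N : Set (J → ℝ) := {x | ∀ j, x j ≤ 0}
  have hNc : IsClosed N := by
    have : N = ⋂ j, {x : J → ℝ | x j ≤ 0} := by
      ext x
      simp [N]
    rw [this]
    exact isClosed_iInter (fun j => isClosed_le (continuous_apply j) continuous_const)
  have hNv : Convex ℝ N := by
    intro x hx y hy a b ha hb _ j
    have h1 := mul_nonpos_of_nonneg_of_nonpos ha (hx j)
    have h2 := mul_nonpos_of_nonneg_of_nonpos hb (hy j)
    show a * x j + b * y j ≤ 0
    linarith
  by_contra hcon
  have hdis : Disjoint K N := by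
    rw [Set.disjoint_left]
    rintro x ⟨μ, hμ, rfl⟩ hxN
    exact hcon ⟨μ, hμ.1, hμ.2, hxN⟩
  obtain ⟨f, s, t, hf1, hst, hf2⟩ := geometric_hahn_banach_compact_closed hKv hKc hNv hNc hdis
  have ht0 : t < 0 := by
    have := hf2 0 (fun j => le_rfl)
    simpa using this
  let e : J → (J → ℝ) := fun j => Pi.single j 1
  have hfe : ∀ j, f (e j) ≤ 0 := by
    intro j
    by_contra hpos
    push Not at hpos
    have hmem : (-( -t / f (e j))) • e j ∈ N := by
      intro k
      show (-( -t / f (e j))) * (e j) k ≤ 0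
      have h1 : 0 ≤ -t / f (e j) := div_nonneg (by linarith) hpos.le
      have h2 : 0 ≤ (e j) k := by
        by_cases hk : k = j
        · subst hk; simp [e]
        · simp [e, hk]
      nlinarith
    have h3 := hf2 _ hmem
    rw [map_smul, smul_eq_mul] at h3
    have h4 : (-( -t / f (e j))) * f (e j) = t := by
      field_simp
    rw [h4] at h3
    exact lt_irrefl _ h3
  have hfx : ∀ x : J → ℝ, f x = ∑ j, x j * f (e j) := by
    intro x
    have hx : x = ∑ j, x j • e j := by
      funext k
      simp [e, Finset.sum_apply, Pi.single_apply]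
    conv_lhs => rw [hx]
    rw [map_sum]
    simp only [map_smul, smul_eq_mul]
  let g : J → ℝ := fun j => - f (e j)
  have hg0 : ∀ j, 0 ≤ g j := fun j => by
    have := hfe j
    show 0 ≤ - f (e j)
    linarith
  have hgA : ∀ a, -t < ∑ j, g j * A a j := by
    intro a
    have hmem : A a ∈ K := by
      refine ⟨Pi.single a 1, single_mem_stdSimplex ℝ a, ?_⟩
      funext j
      simp [Φ, Pi.single_apply]
    have h1 := hf1 _ hmem
    rw [hfx] at h1
    have h2 : ∑ j, g j * A a j = - ∑ j, A a j * f (e j) := by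
      rw [← Finset.sum_neg_distrib]
      apply Finset.sum_congr rfl
      intro j _
      show (- f (e j)) * A a j = _
      ring
    rw [h2]
    linarith
  let B : ℝ := ∑ a, ∑ j, |A a j|
  obtain ⟨T, hT⟩ := exists_nat_gt (B / (-t))
  have hTB : B < T * (-t) := by
    rw [div_lt_iff₀ (by linarith)] at hT
    exact hT
  obtain ⟨a, ha⟩ := h (fun j => ⌊(T : ℝ) * g j⌋₊)
  have h1 : ∀ j, (T : ℝ) * g j * A a j - |A a j| ≤ (⌊(T : ℝ) * g j⌋₊ : ℝ) * A a j := by
    intro j
    have hnn : 0 ≤ (T : ℝ) * g j := mul_nonneg (Nat.cast_nonneg _) (hg0 j)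
    have h2 := Nat.floor_le hnn
    have h3 := Nat.lt_floor_add_one ((T : ℝ) * g j)
    rcases le_or_gt 0 (A a j) with hA | hA
    · rw [abs_of_nonneg hA]
      nlinarith
    · rw [abs_of_neg hA]
      nlinarith
  have h2 : ∑ j, ((T : ℝ) * g j * A a j - |A a j|) ≤ ∑ j, (⌊(T : ℝ) * g j⌋₊ : ℝ) * A a j :=
    Finset.sum_le_sum (fun j _ => h1 j)
  have h3 : ∑ j, ((T : ℝ) * g j * A a j - |A a j|) = T * ∑ j, g j * A a j - ∑ j, |A a j| := by
    rw [Finset.sum_sub_distrib, Finset.mul_sum]
    congr 1
    apply Finset.sum_congr rfl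
    intro j _
    ring
  have h4 : ∑ j, |A a j| ≤ B :=
    Finset.single_le_sum (f := fun a => ∑ j, |A a j|)
      (fun a _ => Finset.sum_nonneg (fun j _ => abs_nonneg _)) (Finset.mem_univ a)
  have h5 := hgA a
  have h6 : (T : ℝ) * (-t) ≤ T * ∑ j, g j * A a j :=
    mul_le_mul_of_nonneg_left h5.le (Nat.cast_nonneg _)
  linarith

end Part4

section Part5
variable {V : Type u}

structure CutSemi (q : V → V → ℝ) : Prop where
  self : ∀ v, q v v = 0
  symm : ∀ u v, q u v = q v u
  nonneg : ∀ u v, 0 ≤ q u v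
  le_one : ∀ u v, q u v ≤ 1
  tri : ∀ x u v, q u v ≤ q x u + q x v
  per : ∀ x u v, q x u + q x v + q u v ≤ 2

def extd [DecidableEq V] (F : Finset V) (a : F → Bool) (v : V) : Bool :=
  if h : v ∈ F then a ⟨v, h⟩ else false

noncomputable def dl [DecidableEq V] (F : Finset V) (a : F → Bool) (u v : V) : ℝ :=
  if extd F a u = extd F a v then 0 else 1

noncomputable def qq [DecidableEq V] (F : Finset V) (μ : (F → Bool) → ℝ) (u v : V) : ℝ :=
  ∑ a, μ a * dl F a u v

theorem qq_cut [DecidableEq V] (F : Finset V) (μ : (F → Bool) → ℝ) (h0 : ∀ a, 0 ≤ μ a) (h1 : ∑ a, μ a = 1) :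
    CutSemi (qq F μ) := by
  have key : ∀ f g : (F → Bool) → ℝ, (∀ a, f a ≤ g a) → ∑ a, μ a * f a ≤ ∑ a, μ a * g a :=
    fun f g h => Finset.sum_le_sum (fun a _ => mul_le_mul_of_nonneg_left (h a) (h0 a))
  refine ⟨?_, ?_, ?_, ?_, ?_, ?_⟩
  · intro v
    unfold qq dl
    simp
  · intro u v
    unfold qq dl
    apply Finset.sum_congr rfl
    intro a _
    simp only [eq_comm]
  · intro u v
    unfold qq
    apply Finset.sum_nonneg
    intro a _
    apply mul_nonneg (h0 a)
    unfold dl
    split_ifs <;> norm_num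
  · intro u v
    unfold qq
    have := key (fun a => dl F a u v) (fun _ => 1) (fun a => by
      show dl F a u v ≤ 1
      unfold dl
      split_ifs <;> norm_num)
    simpa [h1] using this
  · intro x u v
    unfold qq
    rw [← Finset.sum_add_distrib]
    simp only [← mul_add]
    apply key
    intro a
    unfold dl
    cases extd F a x <;> cases extd F a u <;> cases extd F a v <;> norm_num
  · intro x u v
    unfold qq
    rw [← Finset.sum_add_distrib, ← Finset.sum_add_distrib]
    simp only [← mul_add]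
    have h2 : (2 : ℝ) = ∑ a, μ a * 2 := by rw [← Finset.sum_mul, h1, one_mul]
    rw [h2]
    apply key
    intro a
    unfold dl
    cases extd F a x <;> cases extd F a u <;> cases extd F a v <;> norm_num

variable {I : Type v} [LinearOrder I]

theorem finite_semi {G : SimpleGraph V} {level : V → I} {C : ℕ}
    (hpsi : ∀ F : Finset V, ∀ w : V → ℕ, (∀ v, w v ≠ 0 → Rich G level v) → ∃ c : V → Bool,
      ∑ v ∈ F, w v * low G level c F v ≤ C * ∑ v ∈ F, w v) (F : Finset V) :
    ∃ q : V → V → ℝ, CutSemi q ∧ ∀ v ∈ F, Rich G level v → ∀ L : Finset V, L ⊆ F →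
      (∀ u ∈ L, G.Adj v u ∧ level u < level v) → ∑ u ∈ L, (1 - q v u) ≤ C := by
  classical
  let FR := F.filter (fun v => Rich G level v)
  have hmm := minimax (Ω := (F → Bool)) (J := FR)
    (fun a j => (low G level (extd F a) F j.1 : ℝ) - C) (by
    intro w
    let w' : V → ℕ := fun v => if h : v ∈ FR then w ⟨v, h⟩ else 0
    obtain ⟨c, hc⟩ := hpsi F w' (by
      intro v hv
      by_cases h : v ∈ FR
      · exact (Finset.mem_filter.1 h).2
      · exact absurd (by simp only [w', dif_neg h]) hv)
    refine ⟨fun u => c u.1, ?_⟩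
    have hconv : ∀ f : V → ℕ, ∑ v ∈ F, w' v * f v = ∑ j : FR, w j * f j.1 := by
      intro f
      have hsub : FR ⊆ F := Finset.filter_subset _ _
      rw [← Finset.sum_subset hsub]
      · rw [← Finset.sum_coe_sort FR (fun v => w' v * f v)]
        apply Finset.sum_congr rfl
        intro j _
        simp only [w', dif_pos j.2]
      · intro v _ hv
        simp only [w', dif_neg hv, zero_mul]
    have h1 : ∑ v ∈ F, w' v = ∑ j : FR, w j := by
      have := hconv (fun _ => 1)
      simpa using this
    rw [hconv, h1] at hc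
    have hlow : ∀ v ∈ F, low G level (extd F (fun u => c u.1)) F v = low G level c F v := by
      intro v hv
      unfold low
      apply kk_congr
      · unfold extd
        rw [dif_pos hv]
      · intro u hu
        unfold extd
        rw [dif_pos (Finset.mem_filter.1 hu).1]
    have h2 : ∑ j : FR, (w j : ℝ) * ((low G level (extd F (fun u => c u.1)) F j.1 : ℝ) - C) =
        ((∑ j : FR, w j * low G level c F j.1 : ℕ) : ℝ) - ((C * ∑ j : FR, w j : ℕ) : ℝ) := by
      push_cast
      rw [Finset.mul_sum, ← Finset.sum_sub_distrib]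
      apply Finset.sum_congr rfl
      intro j _
      rw [hlow j.1 (Finset.mem_filter.1 j.2).1]
      ring
    rw [h2]
    have : ((∑ j : FR, w j * low G level c F j.1 : ℕ) : ℝ) ≤ ((C * ∑ j : FR, w j : ℕ) : ℝ) := by
      exact_mod_cast hc
    linarith)
  obtain ⟨μ, hμ0, hμ1, hμ2⟩ := hmm
  refine ⟨qq F μ, qq_cut F μ hμ0 hμ1, ?_⟩
  intro v hv hr L hL hadj
  have h1 : ∑ u ∈ L, (1 - qq F μ v u) = ∑ a, μ a * ∑ u ∈ L, (1 - dl F a v u) := by
    unfold qq
    simp only [Finset.mul_sum]
    rw [Finset.sum_comm]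
    apply Finset.sum_congr rfl
    intro u _
    rw [← hμ1, ← Finset.sum_sub_distrib]
    apply Finset.sum_congr rfl
    intro a _
    rw [hμ1]
    ring
  have h2 : ∀ a, ∑ u ∈ L, (1 - dl F a v u) ≤ (low G level (extd F a) F v : ℝ) := by
    intro a
    have h3 : ∑ u ∈ L, (1 - dl F a v u) = ((L.filter (fun u => extd F a v = extd F a u)).card : ℝ) := by
      rw [Finset.card_filter]
      push_cast
      apply Finset.sum_congr rfl
      intro u _
      unfold dl
      split_ifs <;> norm_num
    rw [h3]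
    unfold low kk
    norm_cast
    apply Finset.card_le_card
    intro u hu
    rw [Finset.mem_filter] at hu
    rw [Finset.mem_filter, Finset.mem_filter]
    exact ⟨⟨hL hu.1, (hadj u hu.1).2⟩, (hadj u hu.1).1, hu.2⟩
  rw [h1]
  have h4 : ∑ a, μ a * ∑ u ∈ L, (1 - dl F a v u) ≤
      ∑ a, μ a * (low G level (extd F a) F v : ℝ) :=
    Finset.sum_le_sum (fun a _ => mul_le_mul_of_nonneg_left (h2 a) (hμ0 a))
  have h5 := hμ2 ⟨v, Finset.mem_filter.2 ⟨hv, hr⟩⟩
  have h6 : ∑ a, μ a * ((low G level (extd F a) F v : ℝ) - C) =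
      ∑ a, μ a * (low G level (extd F a) F v : ℝ) - C := by
    simp only [mul_sub, Finset.sum_sub_distrib, ← Finset.sum_mul, hμ1, one_mul]
  simp only [h6] at h5
  linarith

theorem exists_semi {G : SimpleGraph V} {level : V → I} {C : ℕ}
    (hpsi : ∀ F : Finset V, ∀ w : V → ℕ, (∀ v, w v ≠ 0 → Rich G level v) → ∃ c : V → Bool,
      ∑ v ∈ F, w v * low G level c F v ≤ C * ∑ v ∈ F, w v) :
    ∃ q : V → V → ℝ, CutSemi q ∧ ∀ v, Rich G level v → ∀ L : Finset V,
      (∀ u ∈ L, G.Adj v u ∧ level u < level v) → ∑ u ∈ L, (1 - q v u) ≤ C := by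
  classical
  choose Q hQ1 hQ2 using finite_semi hpsi
  let 𝒰 : Ultrafilter (Finset V) := Ultrafilter.of atTop
  have hle : (𝒰 : Filter (Finset V)) ≤ atTop := Ultrafilter.of_le _
  have hlim : ∀ u v : V, ∃ x : ℝ, Tendsto (fun F => Q F u v) (𝒰 : Filter (Finset V)) (𝓝 x) := by
    intro u v
    have hmem : ((𝒰.map (fun F => Q F u v) : Ultrafilter ℝ) : Filter ℝ) ≤ 𝓟 (Set.Icc (0 : ℝ) 1) := by
      rw [Filter.le_principal_iff, Ultrafilter.coe_map, Filter.mem_map]
      exact Filter.univ_mem' (fun F => ⟨(hQ1 F).nonneg u v, (hQ1 F).le_one u v⟩)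
    obtain ⟨x, _, hx⟩ := isCompact_Icc.ultrafilter_le_nhds _ hmem
    exact ⟨x, by rw [Ultrafilter.coe_map] at hx; exact hx⟩
  choose q hq using hlim
  refine ⟨q, ⟨?_, ?_, ?_, ?_, ?_, ?_⟩, ?_⟩
  · intro v
    refine tendsto_nhds_unique (hq v v) ?_
    simp only [fun F => (hQ1 F).self v]
    exact tendsto_const_nhds
  · intro u v
    refine tendsto_nhds_unique (hq u v) ?_
    simp only [fun F => (hQ1 F).symm u v]
    exact hq v u
  · intro u v
    exact ge_of_tendsto' (hq u v) (fun F => (hQ1 F).nonneg u v)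
  · intro u v
    exact le_of_tendsto' (hq u v) (fun F => (hQ1 F).le_one u v)
  · intro x u v
    exact le_of_tendsto_of_tendsto' (hq u v) ((hq x u).add (hq x v)) (fun F => (hQ1 F).tri x u v)
  · intro x u v
    exact le_of_tendsto' (((hq x u).add (hq x v)).add (hq u v)) (fun F => (hQ1 F).per x u v)
  · intro v hv L hL
    have h1 : Tendsto (fun F => ∑ u ∈ L, (1 - Q F v u)) (𝒰 : Filter (Finset V))
        (𝓝 (∑ u ∈ L, (1 - q v u))) :=
      tendsto_finsetSum _ (fun u _ => tendsto_const_nhds.sub (hq v u))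
    refine le_of_tendsto h1 ?_
    filter_upwards [hle (eventually_ge_atTop (insert v L))] with F hF
    exact hQ2 F v (hF (Finset.mem_insert_self _ _)) hv L
      ((Finset.subset_insert _ _).trans hF) hL

end Part5

section Part6
variable {V : Type u}

theorem greedy {r : V → V → Prop} (wf : WellFounded r) {S : V → Set V} (hS : ∀ v, (S v).Finite)
    (hr : ∀ v, ∀ u ∈ S v, r u v) : ∃ g : V → ℕ, ∀ v, ∀ u ∈ S v, g u ≠ g v := by
  classical
  let step : (v : V) → ((u : V) → r u v → ℕ) → ℕ := fun v ih =>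
    sInf {n : ℕ | ∀ (u : V) (h : u ∈ S v), n ≠ ih u (hr v u h)}
  refine ⟨wf.fix step, ?_⟩
  intro v u hu
  have hne : {n : ℕ | ∀ (u : V) (h : u ∈ S v), n ≠ (fun u _ => wf.fix step u : (u : V) → r u v → ℕ) u (hr v u h)}.Nonempty := by
    have hfin : ((fun u => wf.fix step u) '' S v).Finite := (hS v).image _
    obtain ⟨n, hn⟩ := hfin.exists_notMem
    refine ⟨n, ?_⟩
    intro u h heq
    exact hn ⟨u, h, heq.symm⟩
  have h1 := Nat.sInf_mem hne
  have h2 : wf.fix step v = sInf {n : ℕ | ∀ (u : V) (h : u ∈ S v),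
      n ≠ (fun u _ => wf.fix step u : (u : V) → r u v → ℕ) u (hr v u h)} := by
    rw [WellFounded.fix_eq]
  rw [← h2] at h1
  exact (h1 u hu).symm

variable {I : Type v} [LinearOrder I] [WellFoundedLT I] [DecidableEq V]

/-- between-level edges are countably chromatic -/
theorem cc_between {G : SimpleGraph V} {level : V → I} {C : ℕ}
    (hC : ∀ S : Finset V, ∃ c, mm G c ∅ S ≤ C * S.card) (hab : Abund G level) :
    ∃ f : V → ℕ, ∀ u v, G.Adj u v → level u ≠ level v → f u ≠ f v := by
  classical
  have hpsi : ∀ F : Finset V, ∀ w : V → ℕ, (∀ v, w v ≠ 0 → Rich G level v) → ∃ c : V → Bool,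
      ∑ v ∈ F, w v * low G level c F v ≤ C * ∑ v ∈ F, w v := by
    intro F w hw
    rcases Finset.eq_empty_or_nonempty F with rfl | hne
    · exact ⟨fun _ => true, by simp⟩
    · obtain ⟨v0, hv0, hmax⟩ := Finset.exists_max_image F level hne
      obtain ⟨c, hc⟩ := psi hC hab (level v0) F hmax w hw 0 (by simp)
      refine ⟨c, ?_⟩
      simpa using hc
  obtain ⟨q, hq, hqL⟩ := exists_semi hpsi
  let G2 : SimpleGraph V :=
    { Adj := fun u v => G.Adj u v ∧ level u ≠ level v
      symm := ⟨fun u v h => ⟨h.1.symm, h.2.symm⟩⟩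
      loopless := ⟨fun u h => h.2 rfl⟩ }
  have hmain : CC G2 := by
    apply cc_of_semimetric G2 q hq.self hq.symm hq.tri hq.per
    intro m hm
    have hm' : (0 : ℝ) < m := by exact_mod_cast hm
    let S : V → Set V := fun v => {u | G.Adj v u ∧ level u < level v ∧ 1 / (m : ℝ) ≤ 1 - q v u}
    have hfin : ∀ v, (S v).Finite := by
      intro v
      by_cases hr : Rich G level v
      · by_contra hinf
        obtain ⟨L, hL1, hL2⟩ := (show (S v).Infinite from hinf).exists_subset_card_eq (C * m + 1)
        have h1 := hqL v hr L (fun u hu => by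
          have := hL1 (Finset.mem_coe.2 hu)
          exact ⟨this.1, this.2.1⟩)
        have h2 : ∑ u ∈ L, (1 / (m : ℝ)) ≤ ∑ u ∈ L, (1 - q v u) :=
          Finset.sum_le_sum (fun u hu => (hL1 (Finset.mem_coe.2 hu)).2.2)
        rw [Finset.sum_const, hL2, nsmul_eq_mul] at h2
        push_cast at h2
        have h3 : ((C : ℝ) * m + 1) * (1 / m) = C + 1 / m := by
          field_simp
        rw [h3] at h2
        have : 0 < 1 / (m : ℝ) := by positivity
        linarith
      · exact (not_infinite.1 hr).subset (fun u hu => ⟨hu.1, hu.2.1⟩)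
    have hwf : WellFounded (fun a b : V => level a < level b) :=
      InvImage.wf level (wellFounded_lt (α := I))
    obtain ⟨g, hg⟩ := greedy hwf hfin (fun v u hu => hu.2.1)
    refine ⟨g, ?_⟩
    intro u v huv hle
    rcases lt_or_gt_of_ne huv.2 with h | h
    · apply hg v u
      refine ⟨huv.1.symm, h, ?_⟩
      rw [hq.symm v u]
      exact hle
    · exact (hg u v ⟨huv.1, h, hle⟩).symm
  obtain ⟨f, hf⟩ := hmain
  exact ⟨f, fun u v h1 h2 => hf u v ⟨h1, h2⟩⟩

omit [WellFoundedLT I] [DecidableEq V] in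
/-- gluing -/
theorem cc_glue {G : SimpleGraph V} {level : V → I}
    (h1 : ∃ f : V → ℕ, ∀ u v, G.Adj u v → level u ≠ level v → f u ≠ f v)
    (h2 : ∀ i, ∃ f : V → ℕ, ∀ u v, G.Adj u v → level u = i → level v = i → f u ≠ f v) : CC G := by
  obtain ⟨f, hf⟩ := h1
  choose g hg using h2
  refine ⟨fun v => Encodable.encode (f v, g (level v) v), ?_⟩
  intro u v huv heq
  have h3 := Encodable.encode_injective heq
  simp only [Prod.mk.injEq] at h3
  by_cases hl : level u = level v
  · rw [hl] at h3
    exact hg (level v) u v huv hl rfl h3.2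
  · exact hf u v huv hl h3.1

end Part6

section Part7
variable {V : Type u}

theorem mk_iUnion_le_of_le {ι : Type u} {κ : Cardinal.{u}} (hκ : ℵ₀ ≤ κ) (f : ι → Set V)
    (hι : #ι ≤ κ) (hf : ∀ i, #(f i) ≤ κ) : #(⋃ i, f i) ≤ κ := by
  refine (Cardinal.mk_iUnion_le f).trans ?_
  refine (mul_le_mul' hι (ciSup_le' hf)).trans ?_
  rw [Cardinal.mul_eq_self hκ]

theorem mk_finset_le {α : Type u} {κ : Cardinal.{u}} (hκ : ℵ₀ ≤ κ) (h : #α ≤ κ) :
    #(Finset α) ≤ κ := by
  rcases finite_or_infinite α with hf | hi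
  · have : Finite (Finset α) := inferInstance
    exact (Cardinal.lt_aleph0_of_finite _).le.trans hκ
  · rw [Cardinal.mk_finset_of_infinite]
    exact h

theorem cost_extd [DecidableEq V] (G : SimpleGraph V) (c : V → Bool) (F U : Finset V) :
    cost G (extd F (fun u => c u.1)) F U = cost G c F U := by
  unfold cost
  congr 1
  ext n
  constructor
  · rintro ⟨c', h1, h2⟩
    refine ⟨c', fun v hv => ?_, h2⟩
    rw [h1 v hv]
    unfold extd
    rw [dif_pos hv]
  · rintro ⟨c', h1, h2⟩
    refine ⟨c', fun v hv => ?_, h2⟩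
    rw [h1 v hv]
    unfold extd
    rw [dif_pos hv]

/-- relative closure -/
theorem exists_closure [DecidableEq V] (G : SimpleGraph V) (Z : Set V) (x : V) :
    ∃ Z' : Set V, Z ⊆ Z' ∧ x ∈ Z' ∧ #Z' ≤ max ℵ₀ #Z ∧
      ∀ F : Finset V, (∀ v ∈ F, v ∈ Z') → ∀ U : Finset V, (∀ v ∈ U, v ∉ Z') → ∀ D : Finset V,
        ∃ U' : Finset V, (∀ v ∈ U', v ∉ Z) ∧ Disjoint U' D ∧ U'.card = U.card ∧
          ∀ c, cost G c F U' = cost G c F U := by
  classical
  let prof : (F : Finset V) → Finset V → ℕ × ((F → Bool) → ℕ) := fun F U =>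
    (U.card, fun a => cost G (extd F a) F U)
  have hhit : ∀ (F : Finset V) (π : ℕ × ((F → Bool) → ℕ)), ∃ H : Finset V,
      (∃ D : Finset V, ∀ U' : Finset V, (∀ v ∈ U', v ∉ Z) → Disjoint U' D → prof F U' ≠ π) →
      (∀ U' : Finset V, (∀ v ∈ U', v ∉ Z) → Disjoint U' H → prof F U' ≠ π) := by
    intro F π
    by_cases h : ∃ D : Finset V, ∀ U' : Finset V, (∀ v ∈ U', v ∉ Z) → Disjoint U' D → prof F U' ≠ π
    · exact ⟨h.choose, fun _ => h.choose_spec⟩
    · exact ⟨∅, fun h' => absurd h' h⟩
  choose hit hhit using hhit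
  let f : Finset V → Set V := fun F => ⋃ π, (hit F π : Set V)
  have hf : ∀ F, (f F).Countable := fun F =>
    Set.countable_iUnion (fun π => (Finset.countable_toSet _))
  let T : ℕ → Set V := fun n => Nat.rec (motive := fun _ => Set V) (insert x Z)
    (fun _ S => S ∪ ⋃ F : Finset S, f (F.map (Function.Embedding.subtype _))) n
  have hT : ∀ n, T (n + 1) = T n ∪ ⋃ F : Finset (T n), f (F.map (Function.Embedding.subtype _)) :=
    fun n => rfl
  have hmono : ∀ n, T n ⊆ T (n + 1) := fun n => by
    rw [hT]; exact Set.subset_union_left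
  have hmono' : ∀ m n, m ≤ n → T m ⊆ T n := fun m n h => monotone_nat_of_le_succ hmono h
  have hκ : ℵ₀ ≤ max ℵ₀ #Z := le_max_left _ _
  have hcard : ∀ n, #(T n) ≤ max ℵ₀ #Z := by
    intro n
    induction n with
    | zero =>
      show #(insert x Z : Set V) ≤ _
      refine (Cardinal.mk_insert_le).trans ?_
      refine (add_le_add (le_max_right ℵ₀ #Z) (Cardinal.one_le_aleph0.trans hκ)).trans ?_
      rw [Cardinal.add_eq_self hκ]
    | succ n ih =>
      rw [hT]
      refine (Cardinal.mk_union_le _ _).trans ?_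
      refine (add_le_add ih (mk_iUnion_le_of_le hκ _ (mk_finset_le hκ ih) ?_)).trans ?_
      · intro F
        exact ((Cardinal.le_aleph0_iff_set_countable).2 (hf _)).trans hκ
      · rw [Cardinal.add_eq_self hκ]
  refine ⟨⋃ n : ULift.{u} ℕ, T n.down, ?_, ?_, ?_, ?_⟩
  · intro v hv
    exact Set.mem_iUnion.2 ⟨⟨0⟩, Set.mem_insert_of_mem _ hv⟩
  · exact Set.mem_iUnion.2 ⟨⟨0⟩, Set.mem_insert _ _⟩
  · apply mk_iUnion_le_of_le hκ
    · rw [Cardinal.mk_uLift, Cardinal.mk_nat, Cardinal.lift_aleph0]
      exact hκ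
    · intro n
      exact hcard _
  · intro F hF U hU D
    have hZ : ∀ v ∈ U, v ∉ Z := fun v hv hvZ =>
      hU v hv (Set.mem_iUnion.2 ⟨⟨0⟩, Set.mem_insert_of_mem _ hvZ⟩)
    -- F is inside some T n
    have hn : ∃ n, ∀ v ∈ F, v ∈ T n := by
      induction F using Finset.induction_on with
      | empty => exact ⟨0, by simp⟩
      | insert a F ha ih =>
        obtain ⟨n, hn⟩ := ih (fun v hv => hF v (Finset.mem_insert_of_mem hv))
        obtain ⟨m, hm⟩ := Set.mem_iUnion.1 (hF a (Finset.mem_insert_self _ _))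
        refine ⟨max n m.down, ?_⟩
        intro v hv
        rcases Finset.mem_insert.1 hv with rfl | hv
        · exact hmono' _ _ (le_max_right _ _) hm
        · exact hmono' _ _ (le_max_left _ _) (hn v hv)
    obtain ⟨n, hn⟩ := hn
    by_contra hcon
    push Not at hcon
    have hbad : ∃ D : Finset V, ∀ U' : Finset V, (∀ v ∈ U', v ∉ Z) → Disjoint U' D →
        prof F U' ≠ prof F U := by
      refine ⟨D, ?_⟩
      intro U' h1 h2 h3
      have h4 : U'.card = U.card := congrArg Prod.fst h3
      obtain ⟨c, hc⟩ := hcon U' h1 h2 h4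
      apply hc
      have h5 := congrFun (congrArg Prod.snd h3) (fun u => c u.1)
      simp only [prof] at h5
      rw [cost_extd, cost_extd] at h5
      exact h5
    have h6 := hhit F (prof F U) hbad U hZ
    apply h6 _ rfl
    rw [Finset.disjoint_left]
    intro v hv hvh
    apply hU v hv
    refine Set.mem_iUnion.2 ⟨⟨n + 1⟩, ?_⟩
    show v ∈ T (n + 1)
    rw [hT]
    refine Or.inr (Set.mem_iUnion.2 ⟨F.subtype (· ∈ T n), ?_⟩)
    have hFe : (F.subtype (· ∈ T n)).map (Function.Embedding.subtype _) = F := by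
      rw [Finset.subtype_map]
      exact Finset.filter_true_of_mem hn
    rw [hFe]
    exact Set.mem_iUnion.2 ⟨prof F U, hvh⟩

theorem exists_levels [DecidableEq V] (G : SimpleGraph V) (hV : ℵ₀ < #V) :
    ∃ (I : Type u) (_ : LinearOrder I) (_ : WellFoundedLT I) (level : V → I),
      Abund G level ∧ ∀ i, #{v // level v = i} < #V := by
  classical
  obtain ⟨q, hq, hqt⟩ := Cardinal.exists_ord_eq V
  have hseg : ∀ i : V, #{j // q j i} < #V := by
    intro i
    have h1 : Ordinal.typein q i < (#V).ord := by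
      rw [hqt]
      exact Ordinal.typein_lt_type q i
    have h2 := Cardinal.lt_ord.1 h1
    rwa [Ordinal.card_typein] at h2
  choose Cl hCl1 hCl2 hCl3 hCl4 using exists_closure G
  let Zp : V → Set V := hq.wf.fix (fun i ih => Cl (⋃ j : {j // q j i}, ih j.1 j.2) i)
  let Zm : V → Set V := fun i => ⋃ j : {j // q j i}, Zp j.1
  have hZp : ∀ i, Zp i = Cl (Zm i) i := by
    intro i
    show hq.wf.fix _ i = _
    rw [WellFounded.fix_eq]
  have hsub : ∀ i, Zm i ⊆ Zp i := fun i => by rw [hZp]; exact hCl1 _ _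
  have hself : ∀ i, i ∈ Zp i := fun i => by rw [hZp]; exact hCl2 _ _
  have hmon : ∀ j i, q j i → Zp j ⊆ Zp i := fun j i h =>
    (Set.subset_iUnion (fun j : {j // q j i} => Zp j.1) ⟨j, h⟩).trans (hsub i)
  have hsegle : ∀ j i, q j i → #{k // q k j} ≤ #{k // q k i} := by
    intro j i h
    refine Cardinal.mk_le_of_injective (f := fun k : {k // q k j} => (⟨k.1, _root_.trans k.2 h⟩ : {k // q k i})) ?_
    intro a b hab
    exact Subtype.ext (congrArg (fun z : {k // q k i} => z.1) hab)
  have hcard : ∀ i, #(Zp i) ≤ max ℵ₀ #{j // q j i} := by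
    intro i
    induction i using hq.wf.induction with
    | _ i ih =>
    rw [hZp]
    refine (hCl3 _ _).trans ?_
    apply max_le (le_max_left _ _)
    apply mk_iUnion_le_of_le (le_max_left _ _)
    · exact le_max_right _ _
    · intro j
      exact (ih j.1 j.2).trans (max_le_max_left _ (hsegle _ _ j.2))
  -- level
  have hlev : ∀ v : V, ∃ i, v ∈ Zp i ∧ ∀ j, v ∈ Zp j → ¬ q j i := by
    intro v
    obtain ⟨i, hi, hi2⟩ := hq.wf.has_min {i | v ∈ Zp i} ⟨v, hself v⟩
    exact ⟨i, hi, fun j hj => hi2 j hj⟩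
  choose level hl1 hl2 using hlev
  let LO : LinearOrder V := linearOrderOfSTO q
  have hlt : ∀ a b : V, a < b ↔ q a b := fun a b => Iff.rfl
  have WF : WellFoundedLT V := ⟨hq.wf⟩
  have hle : ∀ v i, level v ≤ i ↔ v ∈ Zp i := by
    intro v i
    constructor
    · intro h
      rcases h.lt_or_eq with h | h
      · exact hmon _ _ ((hlt _ _).1 h) (hl1 v)
      · rw [← h]; exact hl1 v
    · intro h
      exact not_lt.1 (fun hcon => hl2 v i h ((hlt _ _).1 hcon))
  have hlm : ∀ v i, v ∉ Zm i → i ≤ level v := by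
    intro v i h
    by_contra hcon
    apply h
    exact Set.mem_iUnion.2 ⟨⟨level v, (hlt _ _).1 (not_le.1 hcon)⟩, hl1 v⟩
  refine ⟨V, LO, WF, level, ?_, ?_⟩
  · intro i F hF U hU D
    have h1 : ∀ v ∈ F, v ∈ Cl (Zm i) i := fun v hv => by
      rw [← hZp]; exact (hle v i).1 (hF v hv)
    have h2 : ∀ v ∈ U, v ∉ Cl (Zm i) i := fun v hv => by
      rw [← hZp]
      intro hcon
      exact absurd ((hle v i).2 hcon) (not_le.2 (hU v hv))
    obtain ⟨U', h3, h4, h5, h6⟩ := hCl4 (Zm i) i F h1 U h2 D
    exact ⟨U', fun v hv => hlm v i (h3 v hv), h4, h5, h6⟩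
  · intro i
    have h1 : #{v // level v = i} ≤ #(Zp i) := by
      refine Cardinal.mk_le_of_injective (f := fun v : {v // level v = i} =>
        (⟨v.1, (hle v.1 i).1 v.2.le⟩ : Zp i)) ?_
      intro a b hab
      exact Subtype.ext (congrArg (fun z : Zp i => z.1) hab)
    refine (h1.trans (hcard i)).trans_lt ?_
    exact max_lt hV (hseg i)

end Part7

section Part8
/-- every finite induced subgraph has a two-colouring with at most `C |S|` ordered
monochromatic adjacent pairs -/
def HC {V : Type u} (G : SimpleGraph V) (C : ℕ) : Prop :=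
  ∀ S : Finset V, ∃ c : V → Bool, ∑ u ∈ S, kk G c u S ≤ C * S.card

theorem HC.comap {V W : Type u} {G : SimpleGraph V} {C : ℕ} (h : HC G C) (e : W ↪ V) :
    HC (G.comap e) C := by
  classical
  intro S
  obtain ⟨c, hc⟩ := h (S.map e)
  refine ⟨fun w => c (e w), ?_⟩
  rw [Finset.sum_map, Finset.card_map] at hc
  refine le_trans (Finset.sum_le_sum ?_) hc
  intro u _
  unfold kk
  rw [Finset.filter_map, Finset.card_map]
  rfl

theorem cc_of_HC (C : ℕ) (κ : Cardinal.{u}) : ∀ (V : Type u) (G : SimpleGraph V), #V = κ →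
    HC G C → CC G := by
  classical
  induction κ using WellFoundedLT.induction with
  | ind κ ih =>
  intro V G hV hG
  by_cases hc : #V ≤ ℵ₀
  · have : Countable V := Cardinal.mk_le_aleph0_iff.1 hc
    obtain ⟨f, hf⟩ := exists_injective_nat V
    exact ⟨f, fun u v huv h => G.ne_of_adj huv (hf h)⟩
  · obtain ⟨I, LO, WF, level, hab, hsmall⟩ := exists_levels G (not_le.1 hc)
    apply cc_glue (level := level)
    · apply cc_between (C := C) _ hab
      intro S
      obtain ⟨c, hc⟩ := hG S
      refine ⟨c, ?_⟩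
      unfold mm
      simpa using hc
    · intro i
      have h1 := hsmall i
      rw [hV] at h1
      obtain ⟨f, hf⟩ := ih _ h1 {v // level v = i} (G.comap (Function.Embedding.subtype _)) rfl
        (hG.comap (Function.Embedding.subtype _))
      refine ⟨fun v => if h : level v = i then f ⟨v, h⟩ else 0, ?_⟩
      intro u v huv hu hv
      simp only [dif_pos hu, dif_pos hv]
      exact hf ⟨u, hu⟩ ⟨v, hv⟩ huv

end Part8

section Part9
section
variable {V : Type u} (G : SimpleGraph V)

def Bip (D : Finset (Sym2 V)) (S : Finset V) : Prop :=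
  ((G.deleteEdges (D : Set (Sym2 V))).induce (S : Set V)).IsBipartite

theorem bip_iff (D : Finset (Sym2 V)) (S : Finset V) :
    Bip G D S ↔ ∃ c : V → Bool, ∀ u ∈ S, ∀ v ∈ S, G.Adj u v → c u = c v → s(u, v) ∈ D := by
  classical
  constructor
  · rintro ⟨f⟩
    refine ⟨fun v => if h : v ∈ S then decide (f ⟨v, h⟩ = 0) else false, ?_⟩
    intro u hu v hv huv hc
    by_contra hD
    have hadj : ((G.deleteEdges (D : Set (Sym2 V))).induce (S : Set V)).Adj ⟨u, hu⟩ ⟨v, hv⟩ := by
      rw [SimpleGraph.comap_adj, SimpleGraph.deleteEdges_adj]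
      exact ⟨huv, fun h => hD (Finset.mem_coe.1 h)⟩
    have hne := f.valid hadj
    simp only [dif_pos hu, dif_pos hv] at hc
    apply hne
    have h1 : (f ⟨u, hu⟩ = 0) ↔ (f ⟨v, hv⟩ = 0) := by
      rw [← decide_eq_decide]
      exact hc
    have h2 : ∀ x y : Fin 2, ((x = 0) ↔ (y = 0)) → x = y := by decide
    exact h2 _ _ h1
  · rintro ⟨c, hc⟩
    refine ⟨SimpleGraph.Coloring.mk (fun v => if c v.1 then (0 : Fin 2) else 1) ?_⟩
    intro u v huv heq
    rw [SimpleGraph.comap_adj, SimpleGraph.deleteEdges_adj] at huv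
    apply huv.2
    apply Finset.mem_coe.2
    apply hc u.1 u.2 v.1 v.2 huv.1
    revert heq
    cases c u.1 <;> cases c v.1 <;> simp

open Classical in
theorem bip_mono {D : Finset (Sym2 V)} {S S' : Finset V} (h : S' ⊆ S)
    (hD : Bip G D S) :
    Bip G (D.filter (fun e => ∀ x ∈ e, x ∈ S')) S' := by
  rw [bip_iff] at hD ⊢
  obtain ⟨c, hc⟩ := hD
  refine ⟨c, ?_⟩
  intro u hu v hv huv hcc
  rw [Finset.mem_filter]
  refine ⟨hc u (h hu) v (h hv) huv hcc, ?_⟩
  intro x hx
  rcases Sym2.mem_iff.1 hx with rfl | rfl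
  · exact hu
  · exact hv

theorem bip_sym2 [DecidableEq V] (S : Finset V) : Bip G S.sym2 S := by
  rw [bip_iff]
  refine ⟨fun _ => true, ?_⟩
  intro u hu v hv _ _
  rw [Finset.mk_mem_sym2_iff]
  exact ⟨hu, hv⟩

theorem bipDeficiency_le {D : Finset (Sym2 V)} {S : Finset V} (h : Bip G D S) :
    bipDeficiency G S ≤ D.card := Nat.sInf_le ⟨D, rfl, h⟩

theorem bipDeficiency_spec (S : Finset V) : ∃ D : Finset (Sym2 V), D.card = bipDeficiency G S ∧
    Bip G D S := by
  classical
  have hne : {m : ℕ | ∃ D : Finset (Sym2 V), D.card = m ∧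
    ((G.deleteEdges (D : Set (Sym2 V))).induce (S : Set V)).IsBipartite}.Nonempty :=
    ⟨_, S.sym2, rfl, bip_sym2 G S⟩
  exact Nat.sInf_mem hne

theorem le_hG (S : Finset V) : bipDeficiency G S ≤ hG G S.card := by
  classical
  apply le_csSup
  · refine ⟨(S.card + 1).choose 2, ?_⟩
    rintro _ ⟨S', hS', rfl⟩
    have h := bipDeficiency_le G (bip_sym2 G S')
    rw [Finset.card_sym2, hS'] at h
    exact h
  · exact ⟨S, rfl, rfl⟩

/-- few monochromatic pairs -/
theorem exists_colouring (S : Finset V) :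
    ∃ c : V → Bool, ∑ u ∈ S, kk G c u S ≤ 2 * bipDeficiency G S := by
  classical
  obtain ⟨D, hD, hB⟩ := bipDeficiency_spec G S
  obtain ⟨c, hc⟩ := (bip_iff G D S).1 hB
  refine ⟨c, ?_⟩
  let P : Finset (V × V) := (S ×ˢ S).filter (fun p => G.Adj p.1 p.2 ∧ c p.1 = c p.2)
  have h1 : ∑ u ∈ S, kk G c u S = P.card := by
    unfold kk
    simp only [P, Finset.card_filter]
    rw [Finset.sum_product]
  rw [h1, ← hD]
  apply Finset.card_le_mul_card_image_of_maps_to (f := fun p : V × V => s(p.1, p.2))
  · intro p hp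
    rw [Finset.mem_filter, Finset.mem_product] at hp
    exact hc p.1 hp.1.1 p.2 hp.1.2 hp.2.1 hp.2.2
  · intro e _
    induction e using Sym2.ind with
    | _ a b =>
    have hsub : P.filter (fun p => s(p.1, p.2) = s(a, b)) ⊆ {(a, b), (b, a)} := by
      intro p hp
      rw [Finset.mem_filter] at hp
      rw [Finset.mem_insert, Finset.mem_singleton]
      rcases Sym2.eq_iff.1 hp.2 with ⟨h1, h2⟩ | ⟨h1, h2⟩
      · exact Or.inl (Prod.ext h1 h2)
      · exact Or.inr (Prod.ext h1 h2)
    exact (Finset.card_le_card hsub).trans Finset.card_le_two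

/-- disjoint copies of a bad profile -/
theorem many_copies {s b : ℕ}
    (hab : ∀ E : Finset V, ∃ S : Finset V, S.card = s ∧ bipDeficiency G S = b ∧ Disjoint S E)
    (k : ℕ) : ∃ S : Finset V, S.card = k * s ∧ ∀ D : Finset (Sym2 V), Bip G D S → k * b ≤ D.card := by
  classical
  induction k with
  | zero => exact ⟨∅, by simp, by simp⟩
  | succ k ih =>
    obtain ⟨S, hS1, hS2⟩ := ih
    obtain ⟨S', hS1', hS2', hdis⟩ := hab S
    refine ⟨S' ∪ S, ?_, ?_⟩
    · rw [Finset.card_union_of_disjoint hdis, hS1, hS1']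
      ring
    · intro D hD
      have h1 := hS2 _ (bip_mono G Finset.subset_union_right hD)
      have h2 := bipDeficiency_le G (bip_mono G (Finset.subset_union_left (s₁ := S')) hD)
      rw [hS2'] at h2
      have h3 : Disjoint (D.filter (fun e => ∀ x ∈ e, x ∈ S)) (D.filter (fun e => ∀ x ∈ e, x ∈ S')) := by
        rw [Finset.disjoint_left]
        intro e he he'
        rw [Finset.mem_filter] at he he'
        induction e using Sym2.ind with
        | _ a b' =>
        exact Finset.disjoint_left.1 hdis (he'.2 a (Sym2.mem_mk_left _ _))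
          (he.2 a (Sym2.mem_mk_left _ _))
      have h4 : (D.filter (fun e => ∀ x ∈ e, x ∈ S) ∪ D.filter (fun e => ∀ x ∈ e, x ∈ S')).card
          ≤ D.card := Finset.card_le_card
            (Finset.union_subset (Finset.filter_subset _ _) (Finset.filter_subset _ _))
      rw [Finset.card_union_of_disjoint h3] at h4
      calc (k + 1) * b = k * b + b := by ring
        _ ≤ _ := (Nat.add_le_add h1 h2).trans h4

theorem not_cc (h : ℵ₀ < cardChromatic G) : ¬ CC G := by
  rintro ⟨f, hf⟩
  apply absurd h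
  rw [not_lt]
  apply csInf_le' 
  refine ⟨ULift.{u} ℕ, by simp, ⟨SimpleGraph.Coloring.mk (fun v => ⟨f v⟩) ?_⟩⟩
  intro u v huv heq
  exact hf u v huv (congrArg ULift.down heq)

theorem cc_of_cocountable {A : Set V} (hA : Aᶜ.Countable)
    (h : CC (G.comap (Function.Embedding.subtype (· ∈ A)))) : CC G := by
  classical
  obtain ⟨f, hf⟩ := h
  have : Countable (Aᶜ : Set V) := hA.to_subtype
  obtain ⟨g, hg⟩ := exists_injective_nat (Aᶜ : Set V)
  refine ⟨fun v => Encodable.encode (if h : v ∈ A then (Sum.inl (f ⟨v, h⟩) : ℕ ⊕ ℕ)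
    else Sum.inr (g ⟨v, h⟩)), ?_⟩
  intro u v huv heq
  have h1 := Encodable.encode_injective heq
  by_cases hu : u ∈ A <;> by_cases hv : v ∈ A
  · simp only [dif_pos hu, dif_pos hv, Sum.inl.injEq] at h1
    exact hf ⟨u, hu⟩ ⟨v, hv⟩ huv h1
  · simp only [dif_pos hu, dif_neg hv] at h1
    exact absurd h1 (by simp)
  · simp only [dif_neg hu, dif_pos hv] at h1
    exact absurd h1 (by simp)
  · simp only [dif_neg hu, dif_neg hv, Sum.inr.injEq] at h1
    have := congrArg Subtype.val (hg h1)
    exact G.ne_of_adj huv this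

theorem explicit (h : ℵ₀ < cardChromatic G) (C : ℕ) : ∀ᶠ n : ℕ in atTop, ∃ S : Finset V,
    S.card = n ∧ ∀ D : Finset (Sym2 V), Bip G D S → C * n < D.card := by
  classical
  by_contra hcon
  rw [Filter.not_eventually] at hcon
  have hinf : Infinite V := by
    by_contra hfin
    rw [not_infinite_iff_finite] at hfin
    obtain ⟨f, hf⟩ := exists_injective_nat V
    exact not_cc G h ⟨f, fun u v huv h => G.ne_of_adj huv (hf h)⟩
  have hhit : ∀ s b : ℕ, ∃ E : Finset V, 2 * C * s < b →
      ∀ S : Finset V, S.card = s → bipDeficiency G S = b → ¬ Disjoint S E := by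
    intro s b
    by_cases hsb : 2 * C * s < b
    swap
    · exact ⟨∅, fun h => absurd h hsb⟩
    by_contra hno
    push Not at hno
    have hab : ∀ E : Finset V, ∃ S : Finset V, S.card = s ∧ bipDeficiency G S = b ∧ Disjoint S E :=
      fun E => (hno E).2
    have hs0 : 0 < s := by
      rcases Nat.eq_zero_or_pos s with rfl | h
      · obtain ⟨S, hS1, hS2, _⟩ := hab ∅
        rw [Finset.card_eq_zero] at hS1
        subst hS1
        have h1 := bipDeficiency_le G (bip_sym2 G (∅ : Finset V))
        rw [hS2] at h1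
        simp at h1
        omega
      · exact h
    obtain ⟨n, hn, hn2⟩ := (hcon.and_eventually (eventually_ge_atTop s)).exists
    apply hn
    obtain ⟨S, hS1, hS2⟩ := many_copies G hab (n / s)
    have hle : S.card ≤ n := by
      rw [hS1]
      exact Nat.div_mul_le_self n s
    obtain ⟨S', hS', hS'2⟩ := Infinite.exists_superset_card_eq S n hle
    refine ⟨S', hS'2, ?_⟩
    intro D hD
    have h1 := hS2 _ (bip_mono G hS' hD)
    have h2 := h1.trans (Finset.card_le_card (Finset.filter_subset _ _))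
    refine lt_of_lt_of_le ?_ h2
    have hk : 0 < n / s := Nat.div_pos hn2 hs0
    have h3 : n < (n / s + 1) * s := by
      have := Nat.lt_div_mul_add (a := n) hs0
      rw [add_mul, one_mul]
      exact this
    have h4 : n / s * (2 * C * s) < n / s * b := Nat.mul_lt_mul_of_pos_left hsb hk
    have h5 : C * n ≤ n / s * (2 * C * s) := by
      have h6 : (n / s + 1) * s ≤ 2 * (n / s) * s := Nat.mul_le_mul_right _ (by omega)
      calc C * n ≤ C * (2 * (n / s) * s) := Nat.mul_le_mul_left _ (h3.le.trans h6)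
        _ = n / s * (2 * C * s) := by ring
    omega
  choose E hE using hhit
  let A : Set V := {v | ∀ p : ℕ × ℕ, v ∉ E p.1 p.2}
  have hA : Aᶜ.Countable := by
    have : Aᶜ = ⋃ p : ℕ × ℕ, (E p.1 p.2 : Set V) := by
      ext v
      simp [A]
    rw [this]
    exact Set.countable_iUnion (fun p => Finset.countable_toSet _)
  apply not_cc G h
  apply cc_of_cocountable G hA
  apply cc_of_HC (4 * C) _ _ _ rfl
  intro S
  obtain ⟨c, hc⟩ := exists_colouring G (S.map (Function.Embedding.subtype _))
  have hdef : bipDeficiency G (S.map (Function.Embedding.subtype _)) ≤ 2 * C * S.card := by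
    by_contra hgt
    push Not at hgt
    have h1 := hE S.card (bipDeficiency G (S.map (Function.Embedding.subtype _))) hgt
      (S.map (Function.Embedding.subtype _)) (Finset.card_map _) rfl
    apply h1
    rw [Finset.disjoint_left]
    intro v hv hvE
    obtain ⟨x, _, rfl⟩ := Finset.mem_map.1 hv
    exact x.2 (_, _) hvE
  refine ⟨fun w => c w.1, ?_⟩
  rw [Finset.sum_map] at hc
  refine le_trans (Finset.sum_le_sum ?_) (hc.trans ?_)
  · intro u _
    unfold kk
    rw [Finset.filter_map, Finset.card_map]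
    rfl
  · calc 2 * bipDeficiency G (S.map (Function.Embedding.subtype _)) ≤ 2 * (2 * C * S.card) :=
        Nat.mul_le_mul_left _ hdef
      _ = 4 * C * S.card := by ring

end

/-- Sanity check: the complete graph has chromatic number equal to its number of vertices, so
graphs with chromatic number `ℵ₁` exist. -/
theorem cardChromatic_top (V : Type u) : cardChromatic (⊤ : SimpleGraph V) = #V := by
  apply le_antisymm
  · apply csInf_le'
    exact ⟨V, rfl, ⟨SimpleGraph.Coloring.mk id (fun {a b} h => h)⟩⟩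
  · have hne : {κ : Cardinal.{u} | ∃ α : Type u, #α = κ ∧
        Nonempty ((⊤ : SimpleGraph V).Coloring α)}.Nonempty :=
      ⟨#V, V, rfl, ⟨SimpleGraph.Coloring.mk id (fun {a b} h => h)⟩⟩
    apply le_csInf hne
    rintro κ ⟨α, rfl, ⟨f⟩⟩
    refine Cardinal.mk_le_of_injective (f := f) ?_
    intro a b hab
    by_contra hne
    exact f.valid (show (⊤ : SimpleGraph V).Adj a b from hne) hab

/-- Sanity check: each value `β(G[S])` with `|S| = n` is at most `hG G n`. -/
theorem bipDeficiency_le_hG {V : Type u} (G : SimpleGraph V) (S : Finset V) (n : ℕ)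
    (hS : S.card = n) : bipDeficiency G S ≤ hG G n := by
  subst hS
  exact le_hG G S

/-- The question of Erdős, Hajnal and Szemerédi. If `G` has uncountable chromatic number, then
`h_G(n) / n → ∞`. -/
theorem result (V : Type u) (G : SimpleGraph V) (h : ℵ₀ < cardChromatic G) :
    Tendsto (fun n : ℕ => (hG G n : ℝ) / (n : ℝ)) atTop atTop ∧
    ∀ C : ℝ, ∀ᶠ n : ℕ in atTop, ∃ S : Finset V, S.card = n ∧
      ∀ D : Finset (Sym2 V),
        ((G.deleteEdges (D : Set (Sym2 V))).induce (S : Set V)).IsBipartite →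
        C * (n : ℝ) < (D.card : ℝ) := by
  have hexp : ∀ C : ℝ, ∀ᶠ n : ℕ in atTop, ∃ S : Finset V, S.card = n ∧
      ∀ D : Finset (Sym2 V),
        ((G.deleteEdges (D : Set (Sym2 V))).induce (S : Set V)).IsBipartite →
        C * (n : ℝ) < (D.card : ℝ) := by
    intro C
    obtain ⟨K, hK⟩ := exists_nat_ge C
    filter_upwards [explicit G h K] with n hn
    obtain ⟨S, hS, hS2⟩ := hn
    refine ⟨S, hS, fun D hD => ?_⟩
    have h1 := hS2 D hD
    have h2 : (K : ℝ) * n < D.card := by exact_mod_cast h1
    exact lt_of_le_of_lt (mul_le_mul_of_nonneg_right hK (Nat.cast_nonneg _)) h2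
  refine ⟨?_, hexp⟩
  rw [tendsto_atTop]
  intro C
  filter_upwards [hexp C, eventually_gt_atTop 0] with n hn hn0
  obtain ⟨S, hS, hS2⟩ := hn
  obtain ⟨D, hD, hB⟩ := bipDeficiency_spec G S
  have h1 := hS2 D hB
  have h2 : bipDeficiency G S ≤ hG G n := by
    have := le_hG G S
    rwa [hS] at this
  have h3 : (D.card : ℝ) ≤ hG G n := by
    rw [hD]
    exact_mod_cast h2
  have hn0' : (0 : ℝ) < n := by exact_mod_cast hn0
  rw [le_div_iff₀ hn0']
  linarith

end Part9

end Pool.Agent.Results.MP_c5c71e_co.Superlinear
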